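import Mathlib
import Pool.Agent.H59.Vec.F2

/-!
# Distinct difference vectors of planar point sets without three collinear points

`diffVectors P` is the number of distinct vectors `p - q` with `p ≠ q` in the finite planar set `P`.

`result`: there are `c > 0` and `n₀` such that every set `P` of `n ≥ n₀` points of the plane, no
three of them on a line, satisfies `diffVectors P ≥ n * exp (c * sqrt (log n / log (log n)))`.

The proof (in `Pool.Agent.H59.Vec`) uses Shannon entropy: laws on `P` minimising a modified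
Ruzsa distance have slowly growing sums; a chain `x_0, ..., x_m` of independent points and a second
chain with the same values of `x_(r-1) - 2 x_r` differ by `h, 2h, 4h, ...`, which produces a long
progression with few new sums, against the hypothesis on lines.
-/

set_option autoImplicit false

namespace Pool.Agent.Results.MP_fa3087_co.NearSharp

open Finset H59.Vec

/-- The number of distinct vectors `p - q`, `p ≠ q` in `P`. -/
noncomputable def diffVectors (P : Finset (EuclideanSpace ℝ (Fin 2))) : ℕ :=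
  Set.ncard {v : EuclideanSpace ℝ (Fin 2) | ∃ p ∈ P, ∃ q ∈ P, p ≠ q ∧ v = p - q}

open Pointwise Classical in
lemma sub_card_le {P : Finset (EuclideanSpace ℝ (Fin 2))} :
    (P - P).card ≤ diffVectors P + 1 := by
  have h1 : ((P - P).erase 0 : Set (EuclideanSpace ℝ (Fin 2)))
      ⊆ {v | ∃ p ∈ P, ∃ q ∈ P, p ≠ q ∧ v = p - q} := by
    intro v hv
    rw [mem_coe, mem_erase, mem_sub] at hv
    obtain ⟨hv0, p, hp, q, hq, rfl⟩ := hv
    exact ⟨p, hp, q, hq, fun h => hv0 (by rw [h, sub_self]), rfl⟩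
  have h2 : {v : EuclideanSpace ℝ (Fin 2) | ∃ p ∈ P, ∃ q ∈ P, p ≠ q ∧ v = p - q}.Finite := by
    apply Set.Finite.subset (P - P).finite_toSet
    rintro v ⟨p, hp, q, hq, _, rfl⟩
    rw [mem_coe, mem_sub]
    exact ⟨p, hp, q, hq, rfl⟩
  have h3 : ((P - P).erase 0).card ≤ diffVectors P := by
    rw [diffVectors, ← Set.ncard_coe_finset]
    exact Set.ncard_le_ncard h1 h2
  have h4 := Finset.pred_card_le_card_erase (s := P - P) (a := 0)
  omega

open Classical in
lemma line_cond {P : Finset (EuclideanSpace ℝ (Fin 2))}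
    (hP : ∀ a ∈ P, ∀ b ∈ P, ∀ c ∈ P, a ≠ b → a ≠ c → b ≠ c →
      ¬ Collinear ℝ ({a, b, c} : Set (EuclideanSpace ℝ (Fin 2)))) :
    ∀ h : EuclideanSpace ℝ (Fin 2), h ≠ 0 → ∀ g,
      (P.filter (fun x => ∃ i : ℤ, x = g + i • h)).card ≤ 2 := by
  intro h _ g
  by_contra hcon
  push Not at hcon
  obtain ⟨a, b, c, ha, hb, hc, hab, hac, hbc⟩ := Finset.two_lt_card_iff.mp hcon
  rw [mem_filter] at ha hb hc
  obtain ⟨ha, i, hi⟩ := ha
  obtain ⟨hb, j, hj⟩ := hb
  obtain ⟨hc, l, hl⟩ := hc
  apply hP a ha b hb c hc hab hac hbc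
  rw [collinear_iff_exists_forall_eq_smul_vadd]
  refine ⟨g, h, ?_⟩
  intro p hp
  simp only [Set.mem_insert_iff, Set.mem_singleton_iff] at hp
  rcases hp with rfl | rfl | rfl
  · exact ⟨i, by rw [hi, vadd_eq_add, add_comm, Int.cast_smul_eq_zsmul]⟩
  · exact ⟨j, by rw [hj, vadd_eq_add, add_comm, Int.cast_smul_eq_zsmul]⟩
  · exact ⟨l, by rw [hl, vadd_eq_add, add_comm, Int.cast_smul_eq_zsmul]⟩

open Pointwise in
/-- Every `n`-point set in the plane without three collinear points determines at least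
`n * exp (c * sqrt (log n / log (log n)))` distinct vectors, for `n ≥ n₀`. -/
theorem result :
    ∃ c : ℝ, 0 < c ∧ ∃ n₀ : ℕ, ∀ P : Finset (EuclideanSpace ℝ (Fin 2)), n₀ ≤ P.card →
      (∀ a ∈ P, ∀ b ∈ P, ∀ d ∈ P, a ≠ b → a ≠ d → b ≠ d →
        ¬ Collinear ℝ ({a, b, d} : Set (EuclideanSpace ℝ (Fin 2)))) →
      (P.card : ℝ) * Real.exp (c * Real.sqrt (Real.log P.card / Real.log (Real.log P.card)))
        ≤ diffVectors P := by
  classical
  refine ⟨1 / 1000, by norm_num, ⌈Real.exp (10 ^ 16)⌉₊, ?_⟩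
  intro P hcard hP
  by_contra hcon
  push Not at hcon
  set c : ℝ := 1 / 1000 with hc
  set N : ℝ := (P.card : ℝ) with hN
  have hN1 : Real.exp (10 ^ 16) ≤ N :=
    (Nat.le_ceil _).trans (Nat.cast_le.mpr hcard)
  have hN0 : 0 < N := (Real.exp_pos _).trans_le hN1
  set L : ℝ := Real.log N with hL
  have hL1 : (10 : ℝ) ^ 16 ≤ L := by
    rw [hL, Real.le_log_iff_exp_le hN0]; exact hN1
  have hL0 : 0 < L := lt_of_lt_of_le (by norm_num) hL1
  set M : ℝ := Real.log L with hM
  have hM1 : 1 ≤ M := by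
    rw [hM, Real.le_log_iff_exp_le hL0]
    have : Real.exp 1 < 2.7182818286 := Real.exp_one_lt_d9
    linarith
  have hM0 : 0 < M := by linarith
  have hsqL : (10 : ℝ) ^ 8 ≤ Real.sqrt L := by
    apply Real.le_sqrt_of_sq_le
    calc ((10 : ℝ) ^ 8) ^ 2 = 10 ^ 16 := by norm_num
      _ ≤ L := hL1
  have hML : M ≤ 2 * Real.sqrt L := by
    have h1 : M = 2 * Real.log (Real.sqrt L) := by
      rw [hM, Real.log_sqrt hL0.le]; ring
    have h2 := Real.log_le_sub_one_of_pos (show 0 < Real.sqrt L by positivity)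
    linarith
  set f : ℝ := Real.sqrt (L / M) with hf
  have hf0 : 0 ≤ f := Real.sqrt_nonneg _
  have hf2 : f ^ 2 = L / M := Real.sq_sqrt (by positivity)
  have hfL : f ^ 2 * M = L := by rw [hf2]; field_simp
  -- `c * f ≥ 2`
  have hcf : 2 ≤ c * f := by
    have h1 : (4000 * 1000 : ℝ) ≤ f ^ 2 := by
      rw [hf2, le_div_iff₀ hM0]
      have h3 : Real.sqrt L * Real.sqrt L = L := Real.mul_self_sqrt hL0.le
      nlinarith
    have h2 : (2000 : ℝ) ≤ f := by
      by_contra h
      push Not at h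
      nlinarith
    rw [hc]; linarith
  -- the doubling
  have hcardpos : 0 < P.card := by
    have : (0 : ℝ) < (P.card : ℝ) := hN0
    exact_mod_cast this
  have hne : P.Nonempty := Finset.card_pos.mp hcardpos
  set k : ℝ := c * f + Real.log 2 with hk
  have hlog2 : 0 < Real.log 2 := Real.log_pos (by norm_num)
  have hlog2' : Real.log 2 < 1 := by
    have := Real.log_two_lt_d9
    linarith
  have hk0 : 0 ≤ k := by linarith
  have hsub : Real.log (((P - P).card : ℕ) : ℝ) ≤ Real.log (P.card : ℝ) + k := by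
    have h1 : (((P - P).card : ℕ) : ℝ) ≤ (diffVectors P : ℝ) + 1 := by
      exact_mod_cast sub_card_le
    have h2 : (1 : ℝ) ≤ N := by
      have : (1 : ℝ) ≤ Real.exp (10 ^ 16) := Real.one_le_exp (by norm_num)
      linarith
    have h3 : (1 : ℝ) ≤ Real.exp (c * f) := Real.one_le_exp (by linarith)
    have h4 : (((P - P).card : ℕ) : ℝ) ≤ N * Real.exp k := by
      rw [hk, Real.exp_add, Real.exp_log (by norm_num)]
      nlinarith
    have h5 : (0 : ℝ) < (((P - P).card : ℕ) : ℝ) := by
      have : (P - P).Nonempty := hne.sub hne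
      exact_mod_cast Finset.card_pos.mpr this
    calc Real.log (((P - P).card : ℕ) : ℝ) ≤ Real.log (N * Real.exp k) := Real.log_le_log h5 h4
      _ = Real.log N + k := by
        rw [Real.log_mul (by positivity) (by positivity), Real.log_exp]
  have tf : ∀ h : EuclideanSpace ℝ (Fin 2), h ≠ 0 → ∀ i : ℤ, i • h = 0 → i = 0 := by
    intro h hh i hi
    rw [← Int.cast_smul_eq_zsmul ℝ] at hi
    rcases smul_eq_zero.mp hi with h1 | h1
    · exact_mod_cast h1
    · exact absurd h1 hh
  have hb := main_bound hne (line_cond hP) tf hk0 (by rw [show (fun a b => Classical.propDecidable (a = b) : DecidableEq (EuclideanSpace ℝ (Fin 2))) = _ from Subsingleton.elim _ _]; exact hsub)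
  -- numerics
  have hk1 : k + 1 ≤ 2 * (c * f) := by rw [hk]; linarith
  have hfle : f ≤ Real.sqrt L := by
    rw [hf]; apply Real.sqrt_le_sqrt
    rw [div_le_iff₀ hM0]; nlinarith
  have hk2 : k + 2 ≤ L := by
    have h3 : Real.sqrt L * Real.sqrt L = L := Real.mul_self_sqrt hL0.le
    have : k ≤ f + 1 := by rw [hk, hc]; linarith
    nlinarith
  have hlogk : Real.log (k + 2) ≤ M := Real.log_le_log (by linarith) hk2
  have hlogk0 : 0 ≤ Real.log (k + 2) := Real.log_nonneg (by linarith)
  have h6 : (k + 1) ^ 2 ≤ 4 * c ^ 2 * f ^ 2 := by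
    have : (k + 1) ^ 2 ≤ (2 * (c * f)) ^ 2 := pow_le_pow_left₀ (by linarith) hk1 2
    nlinarith
  have h7 : (k + 1) ^ 2 * Real.log (k + 2) ≤ 4 * c ^ 2 * f ^ 2 * M :=
    mul_le_mul h6 hlogk hlogk0 (by positivity)
  have h8 : L ≤ 20000 * (4 * c ^ 2) * L := by
    calc L ≤ 20000 * (k + 1) ^ 2 * Real.log (k + 2) := hb
      _ = 20000 * ((k + 1) ^ 2 * Real.log (k + 2)) := by ring
      _ ≤ 20000 * (4 * c ^ 2 * f ^ 2 * M) := by linarith
      _ = 20000 * (4 * c ^ 2) * (f ^ 2 * M) := by ring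
      _ = 20000 * (4 * c ^ 2) * L := by rw [hfL]
  rw [hc] at h8
  norm_num at h8
  linarith

end Pool.Agent.Results.MP_fa3087_co.NearSharp
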